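import Pool.Agent.H143R3.MT.Stmts

/-!
# `TaskSplit` of the project on random walks among moving traps
-/

namespace Pool.Agent.H662R3.MT

open Pool.Agent.H143R3.MT
open scoped ENNReal NNReal

variable {q : ℤ → ℝ≥0∞}

theorem conv_add (f g : ℤ → ℝ≥0∞) (z : ℤ) :
    conv q (fun y => f y + g y) z = conv q f z + conv q g z := by
  simp only [conv, mul_add]
  exact ENNReal.tsum_add

theorem conv_le_one (hq : ∑' k, q k = 1) {f : ℤ → ℝ≥0∞} (h : ∀ z, f z ≤ 1) (z : ℤ) :
    conv q f z ≤ 1 := by
  unfold conv
  calc ∑' k, q k * f (z + k) ≤ ∑' k, q k * 1 := by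
        refine ENNReal.tsum_le_tsum fun k => ?_
        gcongr
        exact h _
    _ = 1 := by simp [hq]

theorem av_add (l : List ℤ) (f g : ℤ → ℝ≥0∞) (z : ℤ) :
    av q l (fun y => f y + g y) z = av q l f z + av q l g z := by
  induction l generalizing z with
  | nil => rfl
  | cons x l ih =>
    simp only [av]
    split_ifs with h
    · simp
    · rw [← conv_add]
      congr 1
      funext y
      exact ih y

theorem av_append (l m : List ℤ) (f : ℤ → ℝ≥0∞) (z : ℤ) :
    av q (l ++ m) f z = av q l (av q m f) z := by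
  induction l generalizing z with
  | nil => rfl
  | cons x l ih =>
    simp only [List.cons_append, av]
    split_ifs with h
    · rfl
    · congr 1
      funext y
      exact ih y

theorem av_le_one (hq : ∑' k, q k = 1) (l : List ℤ) {f : ℤ → ℝ≥0∞} (h : ∀ z, f z ≤ 1) (z : ℤ) :
    av q l f z ≤ 1 := by
  induction l generalizing z with
  | nil => exact h z
  | cons x l ih =>
    simp only [av]
    split_ifs with hx
    · exact zero_le_one
    · exact conv_le_one hq ih z

theorem fr_le_one (hq : ∑' k, q k = 1) (n : ℕ) {f : ℤ → ℝ≥0∞} (h : ∀ z, f z ≤ 1) (z : ℤ) :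
    fr q n f z ≤ 1 := by
  induction n generalizing z with
  | zero => exact h z
  | succ n ih => exact conv_le_one hq ih z

theorem av_add_Wd (w r : List ℤ) (z : ℤ) :
    av q w (av q r fun _ => 1) z + Wd q w r z = fr q w.length (av q r fun _ => 1) z := by
  induction w generalizing z with
  | nil => simp [av, Wd, fr]
  | cons x w ih =>
    simp only [av, Wd, List.length_cons]
    split_ifs with h
    · simp
    · rw [← conv_add]
      simp only [fr]
      congr 1
      funext y
      exact ih y

theorem Qh_lt_top (hq : ∑' k, q k = 1) (l : List ℤ) : Qh q l < ∞ := by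
  induction l with
  | nil => simp [Qh, av]
  | cons x l ih =>
    have key : Qh q (x :: l) ≤ 1 + Qh q l := by
      have h1 : ∀ y : ℤ, 1 - av q (x :: l) (fun _ => 1) y ≤
          (if y = x then 1 else 0) + ∑' k, q k * (1 - av q l (fun _ => 1) (y + k)) := by
        intro y
        simp only [av]
        split_ifs with h
        · simp
        · rw [zero_add]
          rw [tsub_le_iff_left]
          unfold conv
          rw [← ENNReal.tsum_add]
          calc (1 : ℝ≥0∞) = ∑' k, q k * 1 := by simp [hq]
            _ ≤ ∑' k, (q k * av q l (fun _ => 1) (y + k) +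
                q k * (1 - av q l (fun _ => 1) (y + k))) := by
              refine ENNReal.tsum_le_tsum fun k => ?_
              rw [← mul_add]
              gcongr
              exact le_add_tsub
      calc Qh q (x :: l) ≤ ∑' y : ℤ, ((if y = x then 1 else 0) +
            ∑' k, q k * (1 - av q l (fun _ => 1) (y + k))) := ENNReal.tsum_le_tsum h1
        _ = 1 + ∑' y : ℤ, ∑' k, q k * (1 - av q l (fun _ => 1) (y + k)) := by
            rw [ENNReal.tsum_add, tsum_ite_eq]
        _ = 1 + ∑' k, ∑' y : ℤ, q k * (1 - av q l (fun _ => 1) (y + k)) := by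
            rw [ENNReal.tsum_comm]
        _ = 1 + ∑' k, q k * Qh q l := by
            congr 1
            refine tsum_congr fun k => ?_
            rw [ENNReal.tsum_mul_left]
            congr 1
            exact (Equiv.addRight k).tsum_eq (fun y => 1 - av q l (fun _ => 1) y)
        _ = 1 + Qh q l := by rw [ENNReal.tsum_mul_right, hq, one_mul]
    exact key.trans_lt (ENNReal.add_lt_top.2 ⟨ENNReal.one_lt_top, ih⟩)

theorem taskSplit : TaskSplit := by
  intro a1 s l w r
  have hq : ∑' k, sk s k = 1 := a1.2.2.1 s
  refine ⟨?_, Qh_lt_top hq _⟩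
  unfold Qh Qo
  rw [← ENNReal.tsum_add]
  refine tsum_congr fun y => ?_
  have e1 : av (sk s) (l ++ w ++ r) (fun _ => 1) y =
      av (sk s) l (av (sk s) w (av (sk s) r fun _ => 1)) y := by
    rw [List.append_assoc, av_append]
    congr 1
    funext z
    rw [av_append]
  have e2 : av (sk s) l (fr (sk s) w.length (av (sk s) r fun _ => 1)) y =
      av (sk s) l (av (sk s) w (av (sk s) r fun _ => 1)) y + av (sk s) l (Wd (sk s) w r) y := by
    rw [← av_add]
    congr 1
    funext z
    exact (av_add_Wd w r z).symm
  have e3 : av (sk s) l (fr (sk s) w.length (av (sk s) r fun _ => 1)) y ≤ 1 :=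
    av_le_one hq l (fr_le_one hq _ (av_le_one hq r fun _ => le_rfl)) y
  rw [e1, e2]
  rw [e2] at e3
  generalize av (sk s) l (av (sk s) w (av (sk s) r fun _ => 1)) y = a at e3 ⊢
  generalize av (sk s) l (Wd (sk s) w r) y = b at e3 ⊢
  have hb : b ≤ 1 - a := ENNReal.le_sub_of_add_le_left (ne_top_of_le_ne_top ENNReal.one_ne_top
    (le_self_add.trans e3)) e3
  rw [← tsub_tsub, tsub_add_cancel_of_le hb]

end Pool.Agent.H662R3.MT
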